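import Mathlib

/-!
Omega-values of the minimal generators of the numerical monoids generated by an interval.
-/

namespace Pool.Agent.Results.MP_d5f0e7_al.IntervalOmega

/-- The numerical monoid generated by the interval of integers from `n` to `n + k`. -/
def intervalMonoid (n k : ℕ) : AddSubmonoid ℕ :=
  AddSubmonoid.closure {x : ℕ | n ≤ x ∧ x ≤ n + k}

/-- Divisibility in the monoid: `x` divides `y` when `y - x` is an element of the monoid. -/
def DividesIn (Γ : AddSubmonoid ℕ) (x y : ℕ) : Prop :=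
  ∃ z ∈ Γ, x + z = y

/-- The property of `m` in the definition of the omega-value of `x`. -/
def OmegaBound (Γ : AddSubmonoid ℕ) (x m : ℕ) : Prop :=
  ∀ (r : ℕ) (a : Fin r → ℕ), (∀ j, a j ∈ Γ) → DividesIn Γ x (∑ j, a j) →
    ∃ T : Finset (Fin r), T.card ≤ m ∧ DividesIn Γ x (∑ j ∈ T, a j)

/-- The closed formula. Here `M = (n - 2) / k + 1` is the ceiling of `(n - 1) / k`. -/
def omegaValue (n k i : ℕ) : ℕ :=
  if k ∣ n - 2 then
    if i = 0 then
      (if ((n - 2) / k + 1) ∣ k - 1 then ((n - 2) / k + 1) + 1 else (n - 2) / k + 1)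
    else
      (if ((n - 2) / k + 1) + 1 ∣ i - 1 then ((n - 2) / k + 1) + 2 else ((n - 2) / k + 1) + 1)
  else
    if i = 0 then ((n - 2) / k + 1) + 1 else ((n - 2) / k + 1) + 2

/-! ### Membership -/

lemma mem_of_bounds {n k : ℕ} : ∀ (q y : ℕ), q * n ≤ y → y ≤ q * (n + k) →
    y ∈ intervalMonoid n k := by
  intro q
  induction q with
  | zero =>
    intro y h1 h2
    have : y = 0 := by simpa using h2
    subst this
    exact zero_mem _
  | succ q ih =>
    intro y h1 h2
    -- choose the generator g = n + min k (y - (q+1) n)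
    by_cases hc : y - (q + 1) * n ≤ k
    · have hg : n + (y - (q + 1) * n) ∈ intervalMonoid n k :=
        AddSubmonoid.subset_closure ⟨by omega, by omega⟩
      have hrest : q * n ∈ intervalMonoid n k := ih _ le_rfl (Nat.mul_le_mul_left _ (by omega))
      have : y = (n + (y - (q + 1) * n)) + q * n := by
        have : (q + 1) * n = q * n + n := by ring
        omega
      rw [this]
      exact add_mem hg hrest
    · have hg : n + k ∈ intervalMonoid n k :=
        AddSubmonoid.subset_closure ⟨by omega, by omega⟩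
      have e1 : (q + 1) * n = q * n + n := by ring
      have e2 : (q + 1) * (n + k) = q * (n + k) + (n + k) := by ring
      have hrest : y - (n + k) ∈ intervalMonoid n k := ih _ (by omega) (by omega)
      have : y = (n + k) + (y - (n + k)) := by omega
      rw [this]
      exact add_mem hg hrest

lemma bounds_of_mem {n k y : ℕ} (h : y ∈ intervalMonoid n k) :
    ∃ q : ℕ, q * n ≤ y ∧ y ≤ q * (n + k) := by
  induction h using AddSubmonoid.closure_induction with
  | mem x hx => exact ⟨1, by simpa using hx.1, by simpa using hx.2⟩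
  | zero => exact ⟨0, by simp, by simp⟩
  | add x y _ _ hx hy =>
    obtain ⟨q1, h1, h2⟩ := hx
    obtain ⟨q2, h3, h4⟩ := hy
    refine ⟨q1 + q2, ?_, ?_⟩
    · have : (q1 + q2) * n = q1 * n + q2 * n := by ring
      omega
    · have : (q1 + q2) * (n + k) = q1 * (n + k) + q2 * (n + k) := by ring
      omega

/-- Elements `q * n + r` with `q * k < r < n` are not in the monoid. -/
lemma not_mem_of {n k q r : ℕ} (h1 : q * k < r) (h2 : r < n) :
    q * n + r ∉ intervalMonoid n k := by
  intro h
  obtain ⟨p, hp1, hp2⟩ := bounds_of_mem h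
  rcases Nat.lt_or_ge q p with hqp | hqp
  · have : (q + 1) * n ≤ p * n := Nat.mul_le_mul_right _ hqp
    have e : (q + 1) * n = q * n + n := by ring
    omega
  · have h3 : p * (n + k) ≤ q * (n + k) := Nat.mul_le_mul_right _ hqp
    have e : q * (n + k) = q * n + q * k := by ring
    omega

/-- Every element of size at least `q * n` is in the monoid once `n - 1 ≤ q * k`. -/
lemma mem_of_ge {n k q y : ℕ} (hn : 0 < n) (h : n - 1 ≤ q * k) (hy : q * n ≤ y) :
    y ∈ intervalMonoid n k := by
  have hd : n * (y / n) + y % n = y := Nat.div_add_mod y n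
  have hm : y % n < n := Nat.mod_lt _ hn
  have hq : q ≤ y / n := (Nat.le_div_iff_mul_le hn).2 hy
  refine mem_of_bounds (y / n) y ?_ ?_
  · rw [mul_comm]; omega
  · have h1 : q * k ≤ (y / n) * k := Nat.mul_le_mul_right _ hq
    have h2 : (y / n) * (n + k) = n * (y / n) + (y / n) * k := by ring
    omega

lemma ge_of_mem_ne_zero {n k y : ℕ} (h : y ∈ intervalMonoid n k) (h0 : y ≠ 0) : n ≤ y := by
  obtain ⟨q, h1, h2⟩ := bounds_of_mem h
  rcases Nat.eq_zero_or_pos q with hq | hq
  · subst hq
    simp at h2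
    exact absurd h2 h0
  · have : 1 * n ≤ q * n := Nat.mul_le_mul_right _ hq
    omega

/-! ### General lemmas about omega bounds -/

lemma dividesIn_add {Γ : AddSubmonoid ℕ} {x y z : ℕ} (h : DividesIn Γ x y) (hz : z ∈ Γ) :
    DividesIn Γ x (y + z) := by
  obtain ⟨w, hw, rfl⟩ := h
  exact ⟨w + z, add_mem hw hz, by ring⟩

lemma lower_bound {Γ : AddSubmonoid ℕ} {x l : ℕ} (a : Fin l → ℕ) (ha : ∀ j, a j ∈ Γ)
    (hdiv : DividesIn Γ x (∑ j, a j))
    (hnot : ∀ j, ∀ z ∈ Γ, x + z + a j ≠ ∑ j, a j) :
    l ∈ lowerBounds {m : ℕ | OmegaBound Γ x m} := by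
  intro m hm
  by_contra hlt
  push Not at hlt
  obtain ⟨T, hT, hdT⟩ := hm l a ha hdiv
  have hne : ∃ j, j ∉ T := by
    by_contra hall
    push Not at hall
    have : T = Finset.univ := Finset.eq_univ_of_forall hall
    rw [this, Finset.card_univ, Fintype.card_fin] at hT
    omega
  obtain ⟨j, hj⟩ := hne
  obtain ⟨z, hz, hxz⟩ := hdT
  have hsub : T ⊆ Finset.univ.erase j := by
    intro t ht
    simp only [Finset.mem_erase, Finset.mem_univ, and_true]
    rintro rfl
    exact hj ht
  have hsum : ∑ t ∈ Finset.univ.erase j, a t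
      = ∑ t ∈ (Finset.univ.erase j) \ T, a t + ∑ t ∈ T, a t :=
    (Finset.sum_sdiff hsub).symm
  have htot : a j + ∑ t ∈ Finset.univ.erase j, a t = ∑ t, a t :=
    Finset.add_sum_erase _ _ (Finset.mem_univ j)
  refine hnot j (z + ∑ t ∈ (Finset.univ.erase j) \ T, a t) (add_mem hz ?_) ?_
  · exact sum_mem (fun t _ => ha t)
  · omega

lemma upper_bound {Γ : AddSubmonoid ℕ} {x m : ℕ}
    (h : ∀ (r : ℕ) (a : Fin r → ℕ) (T : Finset (Fin r)), (∀ j ∈ T, a j ∈ Γ ∧ a j ≠ 0) →
      DividesIn Γ x (∑ j ∈ T, a j) →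
      (∀ j ∈ T, ¬ DividesIn Γ x (∑ t ∈ T.erase j, a t)) → T.card ≤ m) :
    OmegaBound Γ x m := by
  intro r a ha hdiv
  -- choose T of minimal cardinality
  let P : ℕ → Prop := fun c => ∃ T : Finset (Fin r), T.card = c ∧ DividesIn Γ x (∑ j ∈ T, a j)
  have hex : ∃ c, P c := ⟨_, Finset.univ, rfl, hdiv⟩
  classical
  obtain ⟨T, hTc, hTd⟩ := Nat.find_spec hex
  have hmin : ∀ j ∈ T, ¬ DividesIn Γ x (∑ t ∈ T.erase j, a t) := by
    intro j hj hd
    have hlt : (T.erase j).card < Nat.find hex := by
      rw [← hTc]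
      exact Finset.card_erase_lt_of_mem hj
    exact Nat.find_min hex hlt ⟨T.erase j, rfl, hd⟩
  refine ⟨T, ?_, hTd⟩
  refine h r a T ?_ hTd hmin
  intro j hj
  refine ⟨ha j, ?_⟩
  intro h0
  apply hmin j hj
  have htot : a j + ∑ t ∈ T.erase j, a t = ∑ t ∈ T, a t := Finset.add_sum_erase _ _ hj
  rw [h0, zero_add] at htot
  rw [htot]
  exact hTd

/-! ### Upper bounds -/

lemma sum_ge {r n : ℕ} (a : Fin r → ℕ) (T : Finset (Fin r)) (h : ∀ j ∈ T, n ≤ a j) :
    T.card * n ≤ ∑ j ∈ T, a j := by
  have := Finset.card_nsmul_le_sum T a n h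
  simpa using this

lemma erase_sum_ge {n k r : ℕ} (a : Fin r → ℕ) (T : Finset (Fin r))
    (h : ∀ j ∈ T, a j ∈ intervalMonoid n k ∧ a j ≠ 0) {j : Fin r} (hj : j ∈ T) :
    (T.card - 1) * n ≤ ∑ t ∈ T.erase j, a t := by
  rw [← Finset.card_erase_of_mem hj]
  apply sum_ge
  intro t ht
  have ht' := h t (Finset.mem_of_mem_erase ht)
  exact ge_of_mem_ne_zero ht'.1 ht'.2

/-- If `k * m = n - 2`, the only element of size at least `m * n` outside the monoid is
`(m + 1) * n - 1`. -/
lemma not_mem_eq {n k m z : ℕ} (hn : 2 ≤ n) (hm : k * m = n - 2) (hk : 1 ≤ k)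
    (hz : m * n ≤ z) (hz' : z ∉ intervalMonoid n k) : z + 1 = (m + 1) * n := by
  have e1 : (m + 1) * n = m * n + n := by ring
  have e2 : (m + 1) * k = k * m + k := by ring
  have h1 : z < (m + 1) * n := by
    by_contra hc
    push Not at hc
    exact hz' (mem_of_ge (by omega) (by omega) hc)
  by_contra hne
  apply hz'
  refine mem_of_bounds m z hz ?_
  have e3 : m * (n + k) = m * n + k * m := by ring
  omega

/-- If all sums with one term erased agree, all terms agree. -/
lemma const_of_erase {r : ℕ} (a : Fin r → ℕ) (T : Finset (Fin r)) (C : ℕ)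
    (h : ∀ j ∈ T, ∑ t ∈ T.erase j, a t = C) {j : Fin r} (hj : j ∈ T) :
    (T.card - 1) * a j = C := by
  have hall : ∀ t ∈ T, a t = a j := by
    intro t ht
    have h1 : a t + ∑ s ∈ T.erase t, a s = ∑ s ∈ T, a s := Finset.add_sum_erase _ _ ht
    have h2 : a j + ∑ s ∈ T.erase j, a s = ∑ s ∈ T, a s := Finset.add_sum_erase _ _ hj
    rw [h t ht] at h1
    rw [h j hj] at h2
    omega
  rw [← h j hj, ← Finset.card_erase_of_mem hj]
  rw [Finset.sum_congr rfl (fun t ht => hall t (Finset.mem_of_mem_erase ht))]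
  simp

lemma upper_main {n k i m s : ℕ} (hn : 2 ≤ n) (hk : 1 ≤ k) (hkn : k ≤ n - 1) (hi : i ≤ k)
    (hm : k * m + s = n - 2) (hs : s < k) :
    OmegaBound (intervalMonoid n k) (n + i) (if i = 0 then m + 2 else m + 3) := by
  apply upper_bound
  intro r a T ha hdiv hnot
  by_contra hc
  push Not at hc
  have hpos : 0 < T.card := by omega
  obtain ⟨j, hj⟩ := Finset.card_pos.1 hpos
  apply hnot j hj
  have hge := erase_sum_ge a T ha hj
  have e2 : (m + 1) * k = k * m + k := by ring
  have e3 : (m + 1) * n = m * n + n := by ring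
  refine ⟨∑ t ∈ T.erase j, a t - (n + i), ?_, ?_⟩
  · apply mem_of_ge (q := m + 1) (by omega) (by omega)
    split_ifs at hc with h0
    · have : (m + 2) * n ≤ (T.card - 1) * n := Nat.mul_le_mul_right _ (by omega)
      have e4 : (m + 2) * n = m * n + n + n := by ring
      omega
    · have : (m + 3) * n ≤ (T.card - 1) * n := Nat.mul_le_mul_right _ (by omega)
      have e4 : (m + 3) * n = m * n + n + n + n := by ring
      omega
  · split_ifs at hc with h0
    · have : (m + 2) * n ≤ (T.card - 1) * n := Nat.mul_le_mul_right _ (by omega)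
      have e4 : (m + 2) * n = m * n + n + n := by ring
      omega
    · have : (m + 3) * n ≤ (T.card - 1) * n := Nat.mul_le_mul_right _ (by omega)
      have e4 : (m + 3) * n = m * n + n + n + n := by ring
      omega

/-- Case `k ∣ n - 2`, `i = 0`, `M ∤ k - 1`. -/
lemma upper_zero {n k m : ℕ} (hn : 2 ≤ n) (hk : 1 ≤ k) (hkn : k ≤ n - 1)
    (hm : k * m = n - 2) (hd : ¬ (m + 1) ∣ k - 1) :
    OmegaBound (intervalMonoid n k) n (m + 1) := by
  apply upper_bound
  intro r a T ha hdiv hnot
  by_contra hc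
  push Not at hc
  have hub := upper_main (i := 0) hn hk hkn (by omega) (s := 0) (by omega) (by omega)
  have e2 : (m + 1) * k = k * m + k := by ring
  have e3 : (m + 1) * n = m * n + n := by ring
  have e4 : (m + 2) * n = m * n + n + n := by ring
  have e5 : (m + 1 + 1) * n = m * n + n + n := by ring
  -- each erased sum equals (m+2) n - 1
  have key : ∀ j ∈ T, ∑ t ∈ T.erase j, a t = (m + 2) * n - 1 := by
    intro j hj
    have hge := erase_sum_ge a T ha hj
    have h1 : (m + 1) * n ≤ (T.card - 1) * n := Nat.mul_le_mul_right _ (by omega)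
    have hz : ∑ t ∈ T.erase j, a t - n ∉ intervalMonoid n k := by
      intro hz
      exact hnot j hj ⟨_, hz, by omega⟩
    have := not_mem_eq hn hm hk (by omega) hz
    omega
  obtain ⟨j, hj⟩ := Finset.card_pos.1 (by omega : 0 < T.card)
  have hcon := const_of_erase a T _ key hj
  have hge := erase_sum_ge a T ha hj
  rw [key j hj] at hge
  have hcard : T.card = m + 2 := by
    by_contra hne
    have : (m + 2) * n ≤ (T.card - 1) * n := Nat.mul_le_mul_right _ (by omega)
    omega
  rw [hcard] at hcon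
  apply hd
  have h5 : (m + 2 - 1) = m + 1 := by omega
  rw [h5] at hcon
  -- (m+1) * a j = (m+2) n - 1 = (m+1) n + (n - 1)
  have h6 : (m + 1) ∣ n - 1 := by
    have : (m + 1) * n + (n - 1) = (m + 1) * a j := by omega
    exact (Nat.dvd_add_right (Dvd.intro _ rfl)).1 (this ▸ Dvd.intro _ rfl)
  have h7 : n - 1 + (k - 1) = (m + 1) * k := by omega
  exact (Nat.dvd_add_right h6).1 (h7 ▸ Dvd.intro _ rfl)

/-- Case `k ∣ n - 2`, `i ≥ 1`, `M + 1 ∤ i - 1`. -/
lemma upper_pos {n k i m : ℕ} (hn : 2 ≤ n) (hk : 1 ≤ k) (hkn : k ≤ n - 1) (hi : i ≤ k)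
    (hi0 : 1 ≤ i) (hm : k * m = n - 2) (hd : ¬ (m + 2) ∣ i - 1) :
    OmegaBound (intervalMonoid n k) (n + i) (m + 2) := by
  apply upper_bound
  intro r a T ha hdiv hnot
  by_contra hc
  push Not at hc
  have e2 : (m + 1) * k = k * m + k := by ring
  have e3 : (m + 1) * n = m * n + n := by ring
  have e4 : (m + 2) * n = m * n + n + n := by ring
  have e5 : (m + 3) * n = m * n + n + n + n := by ring
  have key : ∀ j ∈ T, ∑ t ∈ T.erase j, a t = (m + 2) * n + (i - 1) := by
    intro j hj
    have hge := erase_sum_ge a T ha hj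
    have h1 : (m + 2) * n ≤ (T.card - 1) * n := Nat.mul_le_mul_right _ (by omega)
    have hz : ∑ t ∈ T.erase j, a t - (n + i) ∉ intervalMonoid n k := by
      intro hz
      exact hnot j hj ⟨_, hz, by omega⟩
    have := not_mem_eq hn hm hk (by omega) hz
    omega
  obtain ⟨j, hj⟩ := Finset.card_pos.1 (by omega : 0 < T.card)
  have hcon := const_of_erase a T _ key hj
  have hge := erase_sum_ge a T ha hj
  rw [key j hj] at hge
  have hcard : T.card = m + 3 := by
    by_contra hne
    have : (m + 3) * n ≤ (T.card - 1) * n := Nat.mul_le_mul_right _ (by omega)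
    omega
  rw [hcard] at hcon
  apply hd
  have h5 : (m + 3 - 1) = m + 2 := by omega
  rw [h5] at hcon
  exact (Nat.dvd_add_right (Dvd.intro _ rfl)).1 (hcon ▸ Dvd.intro _ rfl)

/-! ### Lower bounds -/

lemma sum_two (l c u v : ℕ) (hc : c ≤ l) :
    ∑ j : Fin l, (if j.val < c then u else v) = c * u + (l - c) * v := by
  rw [Fin.sum_univ_eq_sum_range (fun j => if j < c then u else v) l]
  rw [← Finset.sum_range_add_sum_Ico _ hc]
  congr 1
  · rw [Finset.sum_congr rfl (fun j hj => if_pos (Finset.mem_range.1 hj))]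
    simp
  · rw [Finset.sum_congr rfl (fun j hj => if_neg (by have := (Finset.mem_Ico.1 hj).1; omega))]
    simp

lemma gen_mem {n k e : ℕ} (he : e ≤ k) : n + e ∈ intervalMonoid n k :=
  AddSubmonoid.subset_closure ⟨by omega, by omega⟩

/-- Lower bound from a family taking two generator values. -/
lemma lower_two {n k x l c e f : ℕ} (hc : c ≤ l) (he : e ≤ k) (hf : f ≤ k) (S : ℕ)
    (hS : c * (n + e) + (l - c) * (n + f) = S)
    (hdiv : ∃ z ∈ intervalMonoid n k, x + z = S)
    (h1 : 0 < c → ∀ z ∈ intervalMonoid n k, x + z + (n + e) ≠ S)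
    (h2 : c < l → ∀ z ∈ intervalMonoid n k, x + z + (n + f) ≠ S) :
    l ∈ lowerBounds {m : ℕ | OmegaBound (intervalMonoid n k) x m} := by
  have hsum := sum_two l c (n + e) (n + f) hc
  refine lower_bound (fun j : Fin l => if j.val < c then n + e else n + f) ?_ ?_ ?_
  · intro j
    split_ifs
    · exact gen_mem he
    · exact gen_mem hf
  · rw [hsum, hS]
    exact hdiv
  · intro j z hz
    rw [hsum, hS]
    split_ifs with hj
    · exact h1 (by omega) z hz
    · exact h2 (by have := j.isLt; omega) z hz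

lemma w1 {n k m s : ℕ} (hn : 2 ≤ n) (hk : 1 ≤ k)
    (hm : k * m + s = n - 2) (hs : s < k) (hs1 : 1 ≤ s) :
    m + 2 ∈ lowerBounds {w : ℕ | OmegaBound (intervalMonoid n k) n w} := by
  obtain ⟨e, c, hec, hc1, hc2⟩ : ∃ e c, (m + 1) * e + c = n - 1 ∧ 1 ≤ c ∧ c ≤ m + 1 := by
    refine ⟨(n - 2) / (m + 1), (n - 2) % (m + 1) + 1, ?_, by omega, ?_⟩
    · have := Nat.div_add_mod (n - 2) (m + 1)
      omega
    · exact Nat.mod_lt _ (by omega)
  have hmk : m * k = k * m := mul_comm _ _
  have e1 : (m + 1) * n = m * n + n := by ring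
  have e2 : (m + 1) * k = k * m + k := by ring
  have hek : e + 1 ≤ k := by
    by_contra hcon
    have : (m + 1) * k ≤ (m + 1) * e := Nat.mul_le_mul_left _ (by omega)
    omega
  have hS : c * (n + (e + 1)) + (m + 2 - c) * (n + e) = m * n + n + n + (n - 1) + e := by
    have h1 : (m + 2 - c) * (n + e) + c * (n + e) = (m + 2) * (n + e) := by
      rw [← Nat.add_mul]; congr 1; omega
    have h2 : c * (n + (e + 1)) = c * (n + e) + c := by ring
    have h3 : (m + 2) * (n + e) = m * n + n + n + (m + 1) * e + e := by ring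
    omega
  refine lower_two (c := c) (e := e + 1) (f := e) (by omega) hek (by omega) _ hS ?_ ?_ ?_
  · refine ⟨m * n + n + (n - 1) + e, ?_, by omega⟩
    exact mem_of_ge (q := m + 1) (by omega) (by omega) (by omega)
  · intro _ z hz heq
    have : z = m * n + (n - 2) := by omega
    rw [this] at hz
    exact not_mem_of (by omega) (by omega) hz
  · intro _ z hz heq
    have : z = m * n + (n - 1) := by omega
    rw [this] at hz
    exact not_mem_of (by omega) (by omega) hz

lemma w2 {n k m : ℕ} (hn : 2 ≤ n) (hk : 1 ≤ k)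
    (hm : k * m = n - 2) (hd : (m + 1) ∣ k - 1) :
    m + 2 ∈ lowerBounds {w : ℕ | OmegaBound (intervalMonoid n k) n w} := by
  have hmk : m * k = k * m := mul_comm _ _
  have e1 : (m + 1) * n = m * n + n := by ring
  have e2 : (m + 1) * k = k * m + k := by ring
  obtain ⟨e, he⟩ : (m + 1) ∣ n - 1 := by
    have h7 : (k - 1) + (n - 1) = (m + 1) * k := by omega
    exact (Nat.dvd_add_right hd).1 (h7 ▸ Dvd.intro _ rfl)
  have hek : e ≤ k := by
    by_contra hcon
    have : (m + 1) * (k + 1) ≤ (m + 1) * e := Nat.mul_le_mul_left _ (by omega)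
    have e3 : (m + 1) * (k + 1) = k * m + k + m + 1 := by ring
    omega
  have hS : 0 * (n + e) + (m + 2 - 0) * (n + e) = m * n + n + n + (n - 1) + e := by
    rw [he]
    simp only [Nat.sub_zero]
    ring
  refine lower_two (c := 0) (e := e) (f := e) (by omega) hek hek _ hS ?_ ?_ ?_
  · refine ⟨m * n + n + (n - 1) + e, ?_, by omega⟩
    exact mem_of_ge (q := m + 1) (by omega) (by omega) (by omega)
  · intro h
    omega
  · intro _ z hz heq
    have : z = m * n + (n - 1) := by omega
    rw [this] at hz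
    exact not_mem_of (by omega) (by omega) hz

lemma w3 {n k m : ℕ} (hn : 2 ≤ n) (hk : 2 ≤ k) (hkn : k ≤ n - 1)
    (hm : k * m = n - 2) :
    m + 1 ∈ lowerBounds {w : ℕ | OmegaBound (intervalMonoid n k) n w} := by
  have hmk : m * k = k * m := mul_comm _ _
  have e1 : (m + 1) * n = m * n + n := by ring
  have e2 : (m + 1) * k = k * m + k := by ring
  have hS : m * (n + k) + (m + 1 - m) * (n + 2) = m * n + n + n := by
    have h1 : m + 1 - m = 1 := by omega
    have h2 : m * (n + k) = m * n + m * k := by ring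
    rw [h1, h2]
    omega
  refine lower_two (c := m) (e := k) (f := 2) (by omega) le_rfl hk _ hS ?_ ?_ ?_
  · refine ⟨m * n + n, ?_, by omega⟩
    exact mem_of_ge (q := m + 1) (by omega) (by omega) (by omega)
  · intro hm0 z hz heq
    obtain ⟨m', rfl⟩ : ∃ m', m = m' + 1 := ⟨m - 1, by omega⟩
    have e3 : (m' + 1) * n = m' * n + n := by ring
    have e4 : (m' + 1) * k = m' * k + k := by ring
    have : z = m' * n + (n - k) := by omega
    rw [this] at hz
    exact not_mem_of (by omega) (by omega) hz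
  · intro _ z hz heq
    rcases Nat.eq_zero_or_pos m with hm0 | hm0
    · subst hm0
      omega
    · obtain ⟨m', rfl⟩ : ∃ m', m = m' + 1 := ⟨m - 1, by omega⟩
      have e3 : (m' + 1) * n = m' * n + n := by ring
      have e4 : (m' + 1) * k = m' * k + k := by ring
      have : z = m' * n + (n - 2) := by omega
      rw [this] at hz
      exact not_mem_of (by omega) (by omega) hz

lemma w4 {n k m s i : ℕ} (hn : 2 ≤ n) (hk : 1 ≤ k) (hi : i ≤ k) (hi2 : 2 ≤ i)
    (hm : k * m + s = n - 2) (hs : s < k) (hs1 : 1 ≤ s) :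
    m + 3 ∈ lowerBounds {w : ℕ | OmegaBound (intervalMonoid n k) (n + i) w} := by
  obtain ⟨e, c, hec, hc1, hc2⟩ : ∃ e c, (m + 2) * e + c = i - 1 ∧ 1 ≤ c ∧ c ≤ m + 2 := by
    refine ⟨(i - 2) / (m + 2), (i - 2) % (m + 2) + 1, ?_, by omega, ?_⟩
    · have := Nat.div_add_mod (i - 2) (m + 2)
      omega
    · exact Nat.mod_lt _ (by omega)
  have hmk : m * k = k * m := mul_comm _ _
  have e1 : (m + 1) * n = m * n + n := by ring
  have e2 : (m + 1) * k = k * m + k := by ring
  have hek : e + 1 ≤ k := by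
    by_contra hcon
    have : (m + 2) * k ≤ (m + 2) * e := Nat.mul_le_mul_left _ (by omega)
    have e3 : (m + 2) * k = k * m + k + k := by ring
    omega
  have hS : c * (n + (e + 1)) + (m + 3 - c) * (n + e) = m * n + n + n + n + (i - 1) + e := by
    have h1 : (m + 3 - c) * (n + e) + c * (n + e) = (m + 3) * (n + e) := by
      rw [← Nat.add_mul]; congr 1; omega
    have h2 : c * (n + (e + 1)) = c * (n + e) + c := by ring
    have h3 : (m + 3) * (n + e) = m * n + n + n + n + (m + 2) * e + e := by ring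
    omega
  refine lower_two (c := c) (e := e + 1) (f := e) (by omega) hek (by omega) _ hS ?_ ?_ ?_
  · refine ⟨m * n + n + (n - 1) + e, ?_, by omega⟩
    exact mem_of_ge (q := m + 1) (by omega) (by omega) (by omega)
  · intro _ z hz heq
    have : z = m * n + (n - 2) := by omega
    rw [this] at hz
    exact not_mem_of (by omega) (by omega) hz
  · intro _ z hz heq
    have : z = m * n + (n - 1) := by omega
    rw [this] at hz
    exact not_mem_of (by omega) (by omega) hz

lemma w5 {n k m s i : ℕ} (hn : 2 ≤ n) (hk : 1 ≤ k) (hi : i ≤ k) (hi1 : 1 ≤ i)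
    (hm : k * m + s = n - 2) (hs : s < k) (hd : (m + 2) ∣ i - 1) :
    m + 3 ∈ lowerBounds {w : ℕ | OmegaBound (intervalMonoid n k) (n + i) w} := by
  obtain ⟨e, he⟩ := hd
  have hmk : m * k = k * m := mul_comm _ _
  have e1 : (m + 1) * n = m * n + n := by ring
  have e2 : (m + 1) * k = k * m + k := by ring
  have hek : e ≤ k := by
    by_contra hcon
    have : (m + 2) * k ≤ (m + 2) * e := Nat.mul_le_mul_left _ (by omega)
    have e3 : (m + 2) * k = k * m + k + k := by ring
    omega
  have hS : 0 * (n + e) + (m + 3 - 0) * (n + e) = m * n + n + n + n + (i - 1) + e := by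
    rw [he]
    simp only [Nat.sub_zero]
    ring
  refine lower_two (c := 0) (e := e) (f := e) (by omega) hek hek _ hS ?_ ?_ ?_
  · refine ⟨m * n + n + (n - 1) + e, ?_, by omega⟩
    exact mem_of_ge (q := m + 1) (by omega) (by omega) (by omega)
  · intro h
    omega
  · intro _ z hz heq
    have : z = m * n + (n - 1) := by omega
    rw [this] at hz
    exact not_mem_of (by omega) (by omega) hz

lemma w6 {n k m i : ℕ} (hn : 2 ≤ n) (hkn : k ≤ n - 1) (hi : i ≤ k) (hi2 : 2 ≤ i)
    (hm : k * m = n - 2) :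
    m + 2 ∈ lowerBounds {w : ℕ | OmegaBound (intervalMonoid n k) (n + i) w} := by
  have hmk : m * k = k * m := mul_comm _ _
  have e1 : (m + 1) * n = m * n + n := by ring
  have e2 : (m + 1) * k = k * m + k := by ring
  have hS : 0 * (n + 0) + (m + 2 - 0) * (n + 0) = m * n + n + n := by
    simp only [Nat.sub_zero]
    ring
  refine lower_two (c := 0) (e := 0) (f := 0) (by omega) (by omega) (by omega) _ hS ?_ ?_ ?_
  · refine ⟨m * n + (n - i), ?_, by omega⟩
    refine mem_of_bounds m _ (by omega) ?_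
    have e3 : m * (n + k) = m * n + k * m := by ring
    omega
  · intro h
    omega
  · intro _ z hz heq
    rcases Nat.eq_zero_or_pos m with hm0 | hm0
    · subst hm0
      omega
    · obtain ⟨m', rfl⟩ : ∃ m', m = m' + 1 := ⟨m - 1, by omega⟩
      have e3 : (m' + 1) * n = m' * n + n := by ring
      have e4 : (m' + 1) * k = m' * k + k := by ring
      have : z = m' * n + (n - i) := by omega
      rw [this] at hz
      exact not_mem_of (by omega) (by omega) hz

/-- For all integers `n ≥ 2`, `1 ≤ k ≤ n - 1` and `0 ≤ i ≤ k`, the omega-value of the minimal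
generator `n + i` of the monoid generated by `n, n + 1, …, n + k` is `omegaValue n k i`: it is the
least `m` with the property defining the omega-value. -/
theorem result (n k i : ℕ) (hn : 2 ≤ n) (hk : 1 ≤ k) (hkn : k ≤ n - 1) (hi : i ≤ k) :
    IsLeast {m : ℕ | OmegaBound (intervalMonoid n k) (n + i) m} (omegaValue n k i) := by
  have hdm := Nat.div_add_mod (n - 2) k
  have hml : (n - 2) % k < k := Nat.mod_lt _ hk
  unfold omegaValue
  generalize hmdef : (n - 2) / k = m at *
  generalize hsdef : (n - 2) % k = s at *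
  have hub := upper_main hn hk hkn hi hdm hml
  have hdvd : k ∣ n - 2 ↔ s = 0 := by
    rw [← hsdef]; exact Nat.dvd_iff_mod_eq_zero
  by_cases h1 : k ∣ n - 2
  · rw [if_pos h1]
    have hs0 : s = 0 := hdvd.1 h1
    subst hs0
    rw [Nat.add_zero] at hdm
    by_cases hi0 : i = 0
    · subst hi0
      rw [if_pos rfl]
      rw [if_pos rfl] at hub
      by_cases h2 : (m + 1) ∣ k - 1
      · rw [if_pos h2]
        exact ⟨hub, w2 hn hk hdm h2⟩
      · rw [if_neg h2]
        have hk2 : 2 ≤ k := by
          by_contra hlt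
          apply h2
          have : k - 1 = 0 := by omega
          rw [this]
          exact dvd_zero _
        exact ⟨upper_zero hn hk hkn hdm h2, w3 hn hk2 hkn hdm⟩
    · rw [if_neg hi0]
      rw [if_neg hi0] at hub
      by_cases h2 : (m + 1 + 1) ∣ i - 1
      · rw [if_pos h2]
        exact ⟨hub, w5 (s := 0) hn hk hi (by omega) (by omega) (by omega) h2⟩
      · rw [if_neg h2]
        have hi2 : 2 ≤ i := by
          by_contra hlt
          apply h2
          have : i - 1 = 0 := by omega
          rw [this]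
          exact dvd_zero _
        exact ⟨upper_pos hn hk hkn hi (by omega) hdm h2, w6 hn hkn hi hi2 hdm⟩
  · rw [if_neg h1]
    have hs1 : 1 ≤ s := by
      by_contra hlt
      exact h1 (hdvd.2 (by omega))
    by_cases hi0 : i = 0
    · subst hi0
      rw [if_pos rfl]
      rw [if_pos rfl] at hub
      exact ⟨hub, w1 hn hk hdm hml hs1⟩
    · rw [if_neg hi0]
      rw [if_neg hi0] at hub
      refine ⟨hub, ?_⟩
      by_cases hi1 : i = 1
      · subst hi1
        exact w5 hn hk hi le_rfl hdm hml (by simp)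
      · exact w4 hn hk hi (by omega) hdm hml hs1

end Pool.Agent.Results.MP_d5f0e7_al.IntervalOmega
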